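import Mathlib
import Pool.Agent.Q49.MR2.Asm
import Pool.Agent.Q129.MR2_Q4
import Pool.Agent.Q181.MR2_B0
import Pool.Agent.Q164.MR2_B1
import Pool.Agent.Q164.MR2_KV
import Pool.Agent.Q164.MR2_BC
import Pool.Agent.Q247.MR2_E
import Pool.Agent.Q153.MR2_F
import Pool.Agent.Q153.MR2_CHI
import Pool.Agent.Q265.MR2_TNE
import Pool.Agent.Q214.MR2.PSI
import Pool.Agent.Q192.MR2_PEN
import Pool.Agent.Q214.MR2.MEM
import Pool.Agent.Q214.MR2.ARF
import Pool.Agent.Q16.MR2_EXW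
import Pool.Agent.Q256.MR2_G2
import Pool.Agent.Q256.MR2_COD2

/-!
# MP_e79d62_co: the codes `C_{δ,s}` are never MRD in even characteristic

`L/K` is the extension of degree 8 of a finite field `K` with `q` elements, `q` even.  The code
`codeC K L s δ` of the maps `x ↦ a x + b (x^(q^s) + δ x^(q^(4+s)))` is not MRD.
-/

set_option autoImplicit false

namespace Pool.Agent.Results.MP_e79d62_co.NeverMRD

open Q49.MR Q49.MR2 Module

/-- The code `C_{δ,s}` over a finite field with an even number `q` of elements, in dimension 8,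
with `s` odd and `δ ≠ 0`, is not maximum rank distance. -/
theorem result (K L : Type) [Field K] [Finite K] [Field L] [Algebra K L]
    (hq : Even (Nat.card K)) (h8 : finrank K L = 8) (s : ℕ) (hs : Odd s) (δ : L) (hδ : δ ≠ 0) :
    ¬ IsMRD (codeC K L s δ) := by
  have hQ4 : S2_Q4 := Q129.MR2_Q4.q4
  have hKV : S2_KV := Q164.MR2_KV.kv Q49.MR2.fx
  have hBC : S2_BC := Q164.MR2_BC.bc hKV Q49.MR2.dim Q49.MR2.tr Q49.MR2.fx
  have hB0 : S2_B0 := Q181.MR2_B0.b0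
  have hB1 : S2_B1 := Q164.MR2_B1.b1 hQ4
  have hE : S2_E := Q247.MR2_E.eee hKV Q49.MR2.ind Q49.MR2.tr Q49.MR2.b8
  have hTNE : S2_TNE := Q265.MR2_TNE.tne Q49.MR2.fx
  have hTOR : S2_TOR := Q265.MR2_TNE.tor Q49.MR2.fx Q49.MR2.k2
  have hPSI : S2_PSI := Q214.MR2.PSI.psi Q49.MR2.fx Q49.MR2.dim
  have hPEN : S2_PEN := Q192.MR2_PEN.pen Q49.MR2.fx Q49.MR2.dim
  have hMEM : S2_MEM := Q214.MR2.MEM.mem Q49.MR2.fx
  have hARF : S2_ARF := Q214.MR2.ARF.arf Q49.MR2.fx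
  have hEXW : S2_EXW := Q16.MR2_EXW.exw
  have hG : S2_G := Q256.MR2_G2.ggg Q49.MR2.b8 Q49.MR2.ind
  have hCOD : S2_COD := Q256.MR2_COD2.cod Q49.MR2.ind
  exact fin2 (notMRD (sol (zero hQ4 hTNE hTOR hPSI hPEN hMEM hARF hEXW) Q153.MR2_CHI.chi hKV hBC
    hB0 hB1 hE) Q153.MR2_F.fff hG hCOD) K L hq h8 s hs δ hδ

end Pool.Agent.Results.MP_e79d62_co.NeverMRD
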